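import Pool.Agent.helper37.CZ.SpecD

/-!
# Row cz:CO1 (MP_376aaf_an): a group which has no such splitting
-/

set_option autoImplicit false

open scoped Matrix Topology ComplexConjugate
open Filter

namespace Pool.Agent.CZ

theorem CO1_split {G : Type} [AddCommGroup G] {H S : AddSubgroup G} (h : IsCompl H S) (g : G) :
    ∃ a ∈ H, ∃ b ∈ S, a + b = g := by
  have h1 : g ∈ H ⊔ S := by
    rw [h.sup_eq_top]
    exact AddSubgroup.mem_top g
  exact AddSubgroup.mem_sup.1 h1

theorem CO1_zero {G : Type} [AddCommGroup G] {H S : AddSubgroup G} (h : IsCompl H S) {g : G}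
    (h1 : g ∈ H) (h2 : g ∈ S) : g = 0 := by
  have h3 : g ∈ H ⊓ S := ⟨h1, h2⟩
  rw [h.inf_eq_bot] at h3
  exact AddSubgroup.mem_bot.1 h3

theorem CO1 : CO1_stmt := by
  intro G _ H S v hc hv htf m hm
  rintro ⟨φ, hφ⟩
  have hm0 : m ≠ 0 := by omega
  have : Fact (1 < m) := ⟨by omega⟩
  set t : G := φ.symm ((0 : ℤ), (1 : ZMod m)) with ht
  set e : G := φ.symm ((1 : ℤ), (0 : ZMod m)) with he
  have hmt : m • t = 0 := by
    apply φ.injective
    rw [map_nsmul, ht, AddEquiv.apply_symm_apply, map_zero]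
    ext
    · simp
    · simp
  have htS : t ∈ S := by
    obtain ⟨a, ha, b, hb, hab⟩ := CO1_split hc t
    have h1 : m • a + m • b = 0 := by rw [← smul_add, hab, hmt]
    have h2 : m • a ∈ S := by
      rw [eq_neg_of_add_eq_zero_left h1]
      exact S.neg_mem (S.nsmul_mem hb m)
    have h3 : m • a = 0 := CO1_zero hc (H.nsmul_mem ha m) h2
    have h4 : a = 0 := htf m a hm0 ha h3
    rw [← hab, h4, zero_add]
    exact hb
  obtain ⟨a, ha, s, hs, has⟩ := CO1_split hc e
  have hve : v = m • e + t := by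
    apply φ.injective
    rw [hφ, map_add, map_nsmul, ht, he, AddEquiv.apply_symm_apply, AddEquiv.apply_symm_apply]
    ext
    · simp
    · simp
  have h1 : m • s + t = v - m • a := by
    rw [hve, ← has, smul_add]
    abel
  have h2 : m • s + t = 0 := by
    refine CO1_zero hc ?_ (S.add_mem (S.nsmul_mem hs m) htS)
    rw [h1]
    exact H.sub_mem hv (H.nsmul_mem ha m)
  have h3 := congrArg (fun g => (φ g).2) h2
  simp only [map_add, map_nsmul, map_zero, Prod.snd_add, Prod.smul_snd, Prod.snd_zero] at h3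
  rw [ht, AddEquiv.apply_symm_apply, nsmul_eq_mul, ZMod.natCast_self, zero_mul, zero_add] at h3
  exact one_ne_zero h3

end Pool.Agent.CZ
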