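import Pool.Agent.helper37.CZ.SpecD

/-!
# Row cz:KRA (MP_376aaf_an): the product of the coefficients
-/

set_option autoImplicit false

open scoped Matrix Topology ComplexConjugate
open Filter

namespace Pool.Agent.CZ

theorem KRA_swap {α β γ δ : Type} (s : Finset α) (t : Finset β) (u : Finset γ) (w : Finset δ)
    (f : α → β → γ → δ → ℂ) :
    ∑ j ∈ s, ∑ m ∈ t, ∑ p ∈ u, ∑ q ∈ w, f j m p q = ∑ p ∈ u, ∑ q ∈ w, ∑ j ∈ s, ∑ m ∈ t, f j m p q := by
  have h1 : ∀ (g : α → β → γ → ℂ), ∑ j ∈ s, ∑ m ∈ t, ∑ p ∈ u, g j m p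
      = ∑ p ∈ u, ∑ j ∈ s, ∑ m ∈ t, g j m p := by
    intro g
    rw [Finset.sum_comm (s := u) (t := s)]
    exact Finset.sum_congr rfl fun j _ => Finset.sum_comm
  have h2 : ∀ (g : α → β → δ → ℂ), ∑ j ∈ s, ∑ m ∈ t, ∑ q ∈ w, g j m q
      = ∑ q ∈ w, ∑ j ∈ s, ∑ m ∈ t, g j m q := by
    intro g
    rw [Finset.sum_comm (s := w) (t := s)]
    exact Finset.sum_congr rfl fun j _ => Finset.sum_comm
  rw [h1]
  exact Finset.sum_congr rfl fun p _ => h2 _

theorem KRA_fin {L L' : Type} [DecidableEq L] [DecidableEq L'] {K' : ℕ} (P : Finset L)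
    (Q : Finset L') (M : Finset ℤ) (A B : L → ℂ) (v : L → L' → ℂ) (c : Fin K' → L' → ℤ → ℂ)
    (hc : ∀ p ∈ Q, ∀ q ∈ Q, ∑ j, ∑ m ∈ M, c j p m * c j q m = if p = q then 1 else 0)
    (hv : ∀ p ∈ P, ∀ q ∈ P, ∑ r ∈ Q, v p r * conj (v q r) = if p = q then 1 else 0) :
    ∑ j, ∑ m ∈ M, (∑ p ∈ P, ∑ r ∈ Q, A p * v p r * c j r m) *
      (∑ r ∈ Q, ∑ p ∈ P, c j r m * conj (v p r) * B p) = ∑ p ∈ P, A p * B p := by
  have h1 : ∀ j m, (∑ p ∈ P, ∑ r ∈ Q, A p * v p r * c j r m) *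
      (∑ r ∈ Q, ∑ p ∈ P, c j r m * conj (v p r) * B p)
      = ∑ r ∈ Q, ∑ s ∈ Q, ((∑ p ∈ P, A p * v p r) * (∑ q ∈ P, conj (v q s) * B q)) *
        (c j r m * c j s m) := by
    intro j m
    rw [Finset.sum_comm, Finset.sum_mul_sum]
    refine Finset.sum_congr rfl fun r _ => Finset.sum_congr rfl fun s _ => ?_
    rw [← Finset.sum_mul]
    have h2 : ∑ p ∈ P, c j s m * conj (v p s) * B p = c j s m * ∑ q ∈ P, conj (v q s) * B q := by
      rw [Finset.mul_sum]
      exact Finset.sum_congr rfl fun q _ => mul_assoc _ _ _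
    rw [h2]
    ring
  have h3 : ∑ j, ∑ m ∈ M, (∑ p ∈ P, ∑ r ∈ Q, A p * v p r * c j r m) *
      (∑ r ∈ Q, ∑ p ∈ P, c j r m * conj (v p r) * B p)
      = ∑ r ∈ Q, (∑ p ∈ P, A p * v p r) * (∑ q ∈ P, conj (v q r) * B q) := by
    rw [Finset.sum_congr rfl fun j _ => Finset.sum_congr rfl fun m _ => h1 j m, KRA_swap]
    refine Finset.sum_congr rfl fun r hr => ?_
    have h4 : ∀ s ∈ Q, ∑ j, ∑ m ∈ M, ((∑ p ∈ P, A p * v p r) * (∑ q ∈ P, conj (v q s) * B q)) *
        (c j r m * c j s m)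
        = if r = s then (∑ p ∈ P, A p * v p r) * (∑ q ∈ P, conj (v q s) * B q) else 0 := by
      intro s hs
      rw [Finset.sum_congr rfl fun j _ => (Finset.mul_sum _ _ _).symm, ← Finset.mul_sum,
        hc r hr s hs, mul_ite, mul_one, mul_zero]
    rw [Finset.sum_congr rfl h4, Finset.sum_ite_eq, if_pos hr]
  rw [h3]
  have h5 : ∀ r ∈ Q, (∑ p ∈ P, A p * v p r) * (∑ q ∈ P, conj (v q r) * B q)
      = ∑ p ∈ P, ∑ q ∈ P, (A p * B q) * (v p r * conj (v q r)) := by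
    intro r _
    rw [Finset.sum_mul_sum]
    exact Finset.sum_congr rfl fun p _ => Finset.sum_congr rfl fun q _ => by ring
  rw [Finset.sum_congr rfl h5, Finset.sum_comm]
  refine Finset.sum_congr rfl fun p hp => ?_
  rw [Finset.sum_comm]
  have h6 : ∀ q ∈ P, ∑ r ∈ Q, (A p * B q) * (v p r * conj (v q r))
      = if p = q then A p * B q else 0 := by
    intro q hq
    rw [← Finset.mul_sum, hv p hp q hq, mul_ite, mul_one, mul_zero]
  rw [Finset.sum_congr rfl h6, Finset.sum_ite_eq, if_pos hp]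

theorem KRA : KRA_stmt := by
  classical
  intro L L' K K' a b v hA hB hB' hv hv' hb1 hb0 hv1 hv0 i l n
  set P : Finset L := (hA i 0).toFinset ∪ (hA l (-n)).toFinset with hP
  set Q : Finset L' := P.biUnion fun p => (hv p).toFinset with hQ
  set M : Finset ℤ := Finset.univ.biUnion fun j : Fin K' => Q.biUnion fun r =>
    ((hB' j r).toFinset.image fun m => -m) with hM
  have hPi : ∀ p, p ∉ P → a i p 0 = 0 := by
    intro p hp
    by_contra h
    exact hp (Finset.mem_union_left _ ((hA i 0).mem_toFinset.2 h))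
  have hPl : ∀ p, p ∉ P → a l p (-n) = 0 := by
    intro p hp
    by_contra h
    exact hp (Finset.mem_union_right _ ((hA l (-n)).mem_toFinset.2 h))
  have hQv : ∀ p ∈ P, ∀ r, r ∉ Q → v p r = 0 := by
    intro p hp r hr
    by_contra h
    exact hr (Finset.mem_biUnion.2 ⟨p, hp, (hv p).mem_toFinset.2 h⟩)
  have hMb : ∀ (j : Fin K') (r : L'), r ∈ Q → ∀ m, m ∉ M → b j r (-m) = 0 := by
    intro j r hr m hm
    by_contra h
    refine hm (Finset.mem_biUnion.2 ⟨j, Finset.mem_univ j, Finset.mem_biUnion.2 ⟨r, hr, ?_⟩⟩)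
    exact Finset.mem_image.2 ⟨-m, (hB' j r).mem_toFinset.2 h, neg_neg m⟩
  -- the two factors
  have hF1 : ∀ (j : Fin K') (m : ℤ), (∑' p, ∑' p', a i p 0 * v p p' * b j p' (-m))
      = ∑ p ∈ P, ∑ r ∈ Q, a i p 0 * v p r * b j r (-m) := by
    intro j m
    rw [tsum_eq_sum (s := P)]
    · refine Finset.sum_congr rfl fun p hp => ?_
      rw [tsum_eq_sum (s := Q)]
      intro r hr
      rw [hQv p hp r hr, mul_zero, zero_mul]
    · intro p hp
      have : ∀ p', a i p 0 * v p p' * b j p' (-m) = 0 := fun p' => by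
        rw [hPi p hp, zero_mul, zero_mul]
      simp only [this, tsum_zero]
  have hF2 : ∀ (j : Fin K') (m : ℤ),
      (∑' p', ∑' p, b j p' (-m) * conj (v p p') * a l p (-m - (n - m)))
      = ∑ r ∈ Q, ∑ p ∈ P, b j r (-m) * conj (v p r) * a l p (-n) := by
    intro j m
    have hn : -m - (n - m) = -n := by ring
    rw [hn]
    have h1 : ∀ r, (∑' p, b j r (-m) * conj (v p r) * a l p (-n))
        = ∑ p ∈ P, b j r (-m) * conj (v p r) * a l p (-n) := by
      intro r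
      rw [tsum_eq_sum (s := P)]
      intro p hp
      rw [hPl p hp, mul_zero]
    simp only [h1]
    rw [tsum_eq_sum (s := Q)]
    intro r hr
    refine Finset.sum_eq_zero fun p hp => ?_
    rw [hQv p hp r hr, map_zero, mul_zero, zero_mul]
  have hF3 : ∀ j : Fin K', (∑' m : ℤ, (∑' p, ∑' p', a i p 0 * v p p' * b j p' (-m)) *
      (∑' p', ∑' p, b j p' (-m) * conj (v p p') * a l p (-m - (n - m))))
      = ∑ m ∈ M, (∑ p ∈ P, ∑ r ∈ Q, a i p 0 * v p r * b j r (-m)) *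
        (∑ r ∈ Q, ∑ p ∈ P, b j r (-m) * conj (v p r) * a l p (-n)) := by
    intro j
    simp only [hF1 j, hF2 j]
    rw [tsum_eq_sum (s := M)]
    intro m hm
    have h1 : ∑ p ∈ P, ∑ r ∈ Q, a i p 0 * v p r * b j r (-m) = 0 := by
      refine Finset.sum_eq_zero fun p _ => Finset.sum_eq_zero fun r hr => ?_
      rw [hMb j r hr m hm, mul_zero]
    rw [h1, zero_mul]
  have hR : (∑' p, a i p 0 * a l p (-n)) = ∑ p ∈ P, a i p 0 * a l p (-n) := by
    rw [tsum_eq_sum (s := P)]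
    intro p hp
    rw [hPi p hp, zero_mul]
  rw [Finset.sum_congr rfl fun j _ => hF3 j, hR]
  refine KRA_fin P Q M (fun p => a i p 0) (fun p => a l p (-n)) v (fun j r m => b j r (-m)) ?_ ?_
  · intro p hp q hq
    have h1 : ∀ j : Fin K', ∑ m ∈ M, b j p (-m) * b j q (-m) = ∑' m : ℤ, b j p m * b j q m := by
      intro j
      rw [← (Equiv.neg ℤ).tsum_eq, tsum_eq_sum (s := M)]
      · rfl
      · intro m hm
        show b j p (-m) * b j q (-m) = 0
        rw [hMb j p hp m hm, zero_mul]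
    rw [Finset.sum_congr rfl fun j _ => h1 j]
    split_ifs with h
    · rw [h]
      exact hb1 q
    · exact hb0 p q h
  · intro p hp q hq
    have h1 : ∑ r ∈ Q, v p r * conj (v q r) = ∑' r, v p r * conj (v q r) := by
      rw [tsum_eq_sum (s := Q)]
      intro r hr
      rw [hQv p hp r hr, zero_mul]
    rw [h1]
    split_ifs with h
    · rw [h]
      exact hv1 q
    · exact hv0 p q h

end Pool.Agent.CZ
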